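import Mathlib

/-! The product of a Baire space with a compact Hausdorff space is Baire. -/

namespace Pool.Agent.Lib.MP_329fc6_gt

open Set Filter Topology

theorem exists_disjoint_dense {H : Type*} [TopologicalSpace H] (Good : Set H → Prop)
    (hG : ∀ U : Set H, IsOpen U → U.Nonempty → ∃ V ⊆ U, IsOpen V ∧ V.Nonempty ∧ Good V) :
    ∃ 𝒱 : Set (Set H), (∀ V ∈ 𝒱, IsOpen V ∧ Good V) ∧ 𝒱.PairwiseDisjoint id ∧ Dense (⋃₀ 𝒱) := by
  obtain ⟨𝒱, h𝒱⟩ := zorn_subset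
    {𝒱 : Set (Set H) | (∀ V ∈ 𝒱, IsOpen V ∧ Good V) ∧ 𝒱.PairwiseDisjoint id} (by
      intro c hc hchain
      refine ⟨⋃₀ c, ⟨?_, ?_⟩, fun s hs => subset_sUnion_of_mem hs⟩
      · rintro V ⟨s, hs, hV⟩
        exact (hc hs).1 V hV
      · exact (pairwiseDisjoint_sUnion hchain.directedOn).2 fun s hs => (hc hs).2)
  refine ⟨𝒱, h𝒱.prop.1, h𝒱.prop.2, ?_⟩
  by_contra hnd
  rw [dense_iff_closure_eq, ← ne_eq, ← nonempty_compl] at hnd
  obtain ⟨V, hVU, hVo, hVne, hVg⟩ := hG _ isClosed_closure.isOpen_compl hnd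
  have hdisj : ∀ W ∈ 𝒱, Disjoint V W := fun W hW =>
    disjoint_left.2 fun x hx hxW => hVU hx (subset_closure ⟨W, hW, hxW⟩)
  have hmem : insert V 𝒱 ⊆ 𝒱 := by
    apply h𝒱.le_of_ge ⟨?_, ?_⟩ (subset_insert _ _)
    · rintro W (rfl | hW)
      · exact ⟨hVo, hVg⟩
      · exact h𝒱.prop.1 W hW
    · exact h𝒱.prop.2.insert fun W hW _ => hdisj W hW
  obtain ⟨x, hx⟩ := hVne
  exact disjoint_left.1 (hdisj V (hmem (mem_insert _ _))) hx hx

/-- A locally constant choice of nonempty open subsets of `K` over a dense open part of `H`. -/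
structure Sel (H K : Type*) [TopologicalSpace H] [TopologicalSpace K] where
  D : Set H
  l : H → Set K
  op : IsOpen D
  dn : Dense D
  lo : ∀ h ∈ D, IsOpen (l h)
  ne : ∀ h ∈ D, (l h).Nonempty
  lc : ∀ h ∈ D, ∀ᶠ h' in 𝓝 h, l h' = l h

theorem Sel.step {H K : Type*} [TopologicalSpace H] [TopologicalSpace K] [RegularSpace K]
    (S : Sel H K) {O : Set (H × K)} (hO : IsOpen O) (hd : Dense O) :
    ∃ S' : Sel H K, ∀ h ∈ S'.D, closure (S'.l h) ⊆ S.l h ∧ ∀ k ∈ S'.l h, (h, k) ∈ O := by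
  classical
  obtain ⟨𝒱, h1, h2, h3⟩ := exists_disjoint_dense
    (fun V : Set H => ∃ L : Set K, IsOpen L ∧ L.Nonempty ∧
      ∀ h ∈ V, closure L ⊆ S.l h ∧ ∀ k ∈ L, (h, k) ∈ O) (by
      intro U hU hUne
      obtain ⟨h, hU', hD⟩ := S.dn.inter_open_nonempty U hU hUne
      obtain ⟨W, hW, hWo, hhW⟩ := mem_nhds_iff.1 (S.lc h hD)
      obtain ⟨⟨h', k⟩, ⟨⟨hh'U, hh'W⟩, hk⟩, hO'⟩ := hd.inter_open_nonempty ((U ∩ W) ×ˢ S.l h)
        ((hU.inter hWo).prod (S.lo h hD)) (Nonempty.prod ⟨h, hU', hhW⟩ (S.ne h hD))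
      obtain ⟨V, L, hV, hL, hh'V, hkL, hVL⟩ := isOpen_prod_iff.1 hO h' k hO'
      obtain ⟨L', hL', hL'c, hL's⟩ := exists_mem_nhds_isClosed_subset
        (inter_mem (hL.mem_nhds hkL) ((S.lo h hD).mem_nhds hk))
      refine ⟨U ∩ W ∩ V, fun x hx => hx.1.1, (hU.inter hWo).inter hV, ⟨h', ⟨hh'U, hh'W⟩, hh'V⟩,
        interior L', isOpen_interior, ⟨k, mem_interior_iff_mem_nhds.2 hL'⟩, fun x hx => ⟨?_, ?_⟩⟩
      · have : S.l x = S.l h := hW hx.1.2
        rw [this]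
        exact (closure_minimal interior_subset hL'c).trans (hL's.trans inter_subset_right)
      · intro k' hk'
        exact hVL ⟨hx.2, (hL's (interior_subset hk')).1⟩)
  choose! L hLo hLne hL using fun V hV => (h1 V hV).2
  let v : H → Set H := fun h => if hh : h ∈ ⋃₀ 𝒱 then hh.choose else ∅
  have hv : ∀ V ∈ 𝒱, ∀ h ∈ V, v h = V := by
    intro V hV h hh
    have hmem : h ∈ ⋃₀ 𝒱 := ⟨V, hV, hh⟩
    simp only [v, dif_pos hmem]
    by_contra hne
    exact disjoint_left.1 (h2 hmem.choose_spec.1 hV hne) hmem.choose_spec.2 hh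
  refine ⟨⟨⋃₀ 𝒱, fun h => L (v h), isOpen_sUnion fun V hV => (h1 V hV).1, h3, ?_, ?_, ?_⟩, ?_⟩
  · rintro h ⟨V, hV, hh⟩
    rw [hv V hV h hh]; exact hLo V hV
  · rintro h ⟨V, hV, hh⟩
    rw [hv V hV h hh]; exact hLne V hV
  · rintro h ⟨V, hV, hh⟩
    filter_upwards [(h1 V hV).1.mem_nhds hh] with h' hh'
    rw [hv V hV h hh, hv V hV h' hh']
  · rintro h ⟨V, hV, hh⟩
    simp only [hv V hV h hh]
    exact hL V hV h hh

theorem baireSpace_prod (H K : Type*) [TopologicalSpace H] [TopologicalSpace K] [BaireSpace H]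
    [CompactSpace K] [T2Space K] : BaireSpace (H × K) := by
  constructor
  intro O hO hd
  rw [dense_iff_inter_open]
  rintro W hW ⟨⟨h₀, k₀⟩, hW₀⟩
  obtain ⟨V, L, hV, hL, hhV, hkL, hVL⟩ := isOpen_prod_iff.1 hW h₀ k₀ hW₀
  choose nxt hnxt using fun (n : ℕ) (S : Sel H K) => S.step (hO n) (hd n)
  let S₀ : Sel H K := ⟨univ, fun _ => L, isOpen_univ, dense_univ, fun _ _ => hL,
    fun _ _ => ⟨k₀, hkL⟩, fun _ _ => Eventually.of_forall fun _ => rfl⟩
  let S : ℕ → Sel H K := fun n => Nat.rec S₀ (fun n S => nxt n S) n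
  have hS : ∀ n, ∀ h ∈ (S (n + 1)).D, closure ((S (n + 1)).l h) ⊆ (S n).l h ∧
      ∀ k ∈ (S (n + 1)).l h, (h, k) ∈ O n := fun n => hnxt n (S n)
  have hD : Dense (⋂ n, (S n).D) := dense_iInter_of_isOpen (fun n => (S n).op) fun n => (S n).dn
  obtain ⟨h, hhV', hh⟩ := hD.inter_open_nonempty V hV ⟨h₀, hhV⟩
  rw [mem_iInter] at hh
  obtain ⟨k, hk⟩ := IsCompact.nonempty_iInter_of_sequence_nonempty_isCompact_isClosed
    (fun n => closure ((S (n + 1)).l h))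
    (fun n => (hS (n + 1) h (hh (n + 1 + 1))).1.trans subset_closure)
    (fun n => ((S (n + 1)).ne h (hh (n + 1))).closure) isClosed_closure.isCompact
    (fun n => isClosed_closure)
  rw [mem_iInter] at hk
  refine ⟨(h, k), hVL ⟨hhV', (hS 0 h (hh 1)).1 (hk 0)⟩, mem_iInter.2 fun n => ?_⟩
  exact (hS n h (hh (n + 1))).2 k ((hS (n + 1) h (hh (n + 1 + 1))).1 (hk (n + 1)))

/-- A space mapped by an inducing map onto a G-delta dense part of `H × (I → T)`. -/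
theorem baireSpace_of_proj {G H I T : Type*} [TopologicalSpace G] [TopologicalSpace H]
    [TopologicalSpace T] [BaireSpace H] [CompactSpace T] [T2Space T] (j : G → H × (I → T))
    (hj : IsInducing j)
    (hP : ∀ (h : H) (t : I → T) (J : Set I), J.Countable →
      ∃ g, (j g).1 = h ∧ ∀ i ∈ J, (j g).2 i = t i) :
    BaireSpace G ∧ IsOpenMap fun g => (j g).1 := by
  have hfin : ∀ O : Set (H × (I → T)), IsOpen O → ∀ p ∈ O, ∃ J : Set I, J.Countable ∧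
      ∀ q : H × (I → T), q.1 = p.1 → (∀ i ∈ J, q.2 i = p.2 i) → q ∈ O := by
    intro O hO p hp
    have h1 : IsOpen ((fun t => (p.1, t)) ⁻¹' O) := hO.preimage (by fun_prop)
    obtain ⟨J, u, hu, hJ⟩ := isOpen_pi_iff.1 h1 p.2 hp
    refine ⟨J, J.countable_toSet, fun q hq1 hq2 => ?_⟩
    have : q.2 ∈ (J : Set I).pi u := fun i hi => hq2 i hi ▸ (hu i hi).2
    have h2 := hJ this
    rw [mem_preimage, ← hq1] at h2
    exact h2
  have hdr : DenseRange j := by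
    rw [DenseRange, dense_iff_inter_open]
    rintro O hO ⟨p, hp⟩
    obtain ⟨J, hJ, hJO⟩ := hfin O hO p hp
    obtain ⟨g, hg1, hg2⟩ := hP p.1 p.2 J hJ
    exact ⟨j g, hJO _ hg1 hg2, g, rfl⟩
  constructor
  · have := baireSpace_prod H (I → T)
    constructor
    intro U hU hd
    choose O hOo hO using fun n => hj.isOpen_iff.1 (hU n)
    have hOd : ∀ n, Dense (O n) := fun n =>
      (hdr.dense_image hj.continuous (hd n)).mono (by rw [← hO n]; exact image_preimage_subset _ _)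
    rw [dense_iff_inter_open]
    rintro W hW ⟨g₀, hg₀⟩
    obtain ⟨O', hO'o, rfl⟩ := hj.isOpen_iff.1 hW
    obtain ⟨p, hp', hp⟩ := (dense_iInter_of_isOpen hOo hOd).inter_open_nonempty O' hO'o ⟨_, hg₀⟩
    rw [mem_iInter] at hp
    choose J hJ hJO using fun n => hfin (O' ∩ O n) (hO'o.inter (hOo n)) p ⟨hp', hp n⟩
    obtain ⟨g, hg1, hg2⟩ := hP p.1 p.2 (⋃ n, J n) (countable_iUnion hJ)
    have key : ∀ n, j g ∈ O' ∩ O n := fun n =>
      hJO n _ hg1 fun i hi => hg2 i (mem_iUnion.2 ⟨n, hi⟩)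
    refine ⟨g, (key 0).1, mem_iInter.2 fun n => ?_⟩
    rw [← hO n]
    exact (key n).2
  · intro W hW
    obtain ⟨O, hOo, rfl⟩ := hj.isOpen_iff.1 hW
    convert isOpenMap_fst O hOo using 1
    ext h
    constructor
    · rintro ⟨g, hg, rfl⟩
      exact ⟨j g, hg, rfl⟩
    · rintro ⟨p, hp, rfl⟩
      obtain ⟨J, hJ, hJO⟩ := hfin O hOo p hp
      obtain ⟨g, hg1, hg2⟩ := hP p.1 p.2 J hJ
      exact ⟨g, hJO _ hg1 hg2, hg1⟩

end Pool.Agent.Lib.MP_329fc6_gt
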