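import Mathlib

namespace Pool.Agent.Lib.MP_329fc6_gt

open scoped Pointwise Topology

/-- Precompact group: finitely many translates of any neighbourhood of the identity cover it. -/
def IsPrecompact (G : Type*) [Group G] [TopologicalSpace G] : Prop :=
  ∀ U ∈ 𝓝 (1 : G), ∃ F : Set G, F.Finite ∧ F * U = Set.univ

/-- Pontryagin reflexive: the evaluation map is a topological isomorphism onto the bidual
(both duals carry the compact-open topology). -/
def IsReflexive (G : Type*) [CommGroup G] [TopologicalSpace G] : Prop :=
  ∃ e : G ≃ₜ* PontryaginDual (PontryaginDual G), ∀ (g : G) (χ : PontryaginDual G), e g χ = χ g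

end Pool.Agent.Lib.MP_329fc6_gt
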