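import Mathlib

/-! Every infinite compact Hausdorff space has a point with a countable pi-network
of infinite sets. -/

namespace Pool.Agent.Lib.MP_329fc6_gt

open Set Filter Topology

theorem piNet_of_perfect {X : Type*} [TopologicalSpace X] [CompactSpace X] [T2Space X]
    {P : Set X} (hP : Perfect P) (hne : P.Nonempty) :
    ∃ x : X, ∃ B : List Bool → Set X, (∀ s, (B s).Infinite) ∧ ∀ U ∈ 𝓝 x, ∃ s, B s ⊆ U := by
  classical
  -- the Cantor scheme
  let T := {C : Set X // Perfect C ∧ C.Nonempty}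
  have hsplit : ∀ C : T, ∃ D : Bool → T, (∀ b, (D b).1 ⊆ C.1) ∧
      Disjoint (D false).1 (D true).1 := by
    intro C
    obtain ⟨C₀, C₁, ⟨h0, h0', h0''⟩, ⟨h1, h1', h1''⟩, hd⟩ := C.2.1.splitting C.2.2
    refine ⟨fun b => cond b ⟨C₁, h1, h1'⟩ ⟨C₀, h0, h0'⟩, ?_, hd⟩
    intro b; cases b
    · exact h0''
    · exact h1''
  choose D hD1 hD2 using hsplit
  let F : List Bool → T := fun s => List.rec (⟨P, hP, hne⟩ : T) (fun b _ C => D C b) s
  have hFcons : ∀ b s, F (b :: s) = D (F s) b := fun _ _ => rfl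
  -- Zorn: a minimal closed set meeting every F s
  let S : Set (Set X) := {L | IsClosed L ∧ ∀ s, (L ∩ (F s).1).Nonempty}
  have hz : ∃ L, Minimal (· ∈ S) L := by
    apply zorn_superset
    intro c hcS hc
    refine ⟨⋂₀ c, ⟨isClosed_sInter fun L hL => (hcS hL).1, fun s => ?_⟩,
      fun L hL => sInter_subset_of_mem hL⟩
    rcases c.eq_empty_or_nonempty with rfl | hcne
    · simpa using (F s).2.2
    have : Nonempty c := hcne.to_subtype
    have hcl : ∀ L : c, IsClosed (L.1 ∩ (F s).1) := fun L =>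
      (hcS L.2).1.inter (F s).2.1.closed
    have := IsCompact.nonempty_iInter_of_directed_nonempty_isCompact_isClosed
      (fun L : c => L.1 ∩ (F s).1) ?_ (fun L => (hcS L.2).2 s) (fun L => (hcl L).isCompact) hcl
    · obtain ⟨x, hx⟩ := this
      rw [mem_iInter] at hx
      obtain ⟨L0⟩ := ‹Nonempty c›
      exact ⟨x, fun L hL => (hx ⟨L, hL⟩).1, (hx L0).2⟩
    · intro L1 L2
      rcases hc.total L1.2 L2.2 with h | h
      · exact ⟨L1, subset_rfl, inter_subset_inter_left _ h⟩
      · exact ⟨L2, inter_subset_inter_left _ h, subset_rfl⟩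
  obtain ⟨L, hL⟩ := hz
  obtain ⟨x, hxL, -⟩ := hL.prop.2 []
  refine ⟨x, fun s => L ∩ (F s).1, ?_, ?_⟩
  · -- each piece is infinite
    have key : ∀ n : ℕ, ∀ s, (n : ℕ∞) ≤ (L ∩ (F s).1).encard := by
      intro n
      induction n with
      | zero => simp
      | succ n ih =>
        intro s
        have h1 : (L ∩ (F (false :: s)).1) ∪ (L ∩ (F (true :: s)).1) ⊆ L ∩ (F s).1 := by
          rintro y (hy | hy)
          · exact ⟨hy.1, hD1 _ _ hy.2⟩
          · exact ⟨hy.1, hD1 _ _ hy.2⟩
        have h2 : Disjoint (L ∩ (F (false :: s)).1) (L ∩ (F (true :: s)).1) :=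
          (hD2 (F s)).mono inter_subset_right inter_subset_right
        have h3 := encard_le_encard h1
        rw [encard_union_eq h2] at h3
        have h4 : 1 ≤ (L ∩ (F (true :: s)).1).encard :=
          one_le_encard_iff_nonempty.2 (hL.prop.2 (true :: s))
        calc ((n + 1 : ℕ) : ℕ∞) = (n : ℕ∞) + 1 := by push_cast; rfl
          _ ≤ _ := add_le_add (ih (false :: s)) h4
          _ ≤ _ := h3
    intro s hfin
    have := key (hfin.toFinset.card + 1) s
    rw [hfin.encard_eq_coe_toFinset_card] at this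
    norm_cast at this
    omega
  · intro U hU
    obtain ⟨V, hVU, hVo, hxV⟩ := mem_nhds_iff.1 hU
    by_contra hcon
    push Not at hcon
    have hmem : L \ V ∈ S := by
      refine ⟨hL.prop.1.sdiff hVo, fun s => ?_⟩
      obtain ⟨y, hy, hyU⟩ := not_subset.1 (hcon s)
      exact ⟨y, ⟨hy.1, fun h => hyU (hVU h)⟩, hy.2⟩
    have := hL.le_of_le hmem sdiff_subset
    exact (this hxL).2 hxV

theorem exists_piNet {X : Type*} [TopologicalSpace X] [CompactSpace X] [T2Space X] [Infinite X] :
    ∃ x : X, ∃ B : List Bool → Set X, (∀ s, (B s).Infinite) ∧ ∀ U ∈ 𝓝 x, ∃ s, B s ⊆ U := by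
  classical
  have hne : (derivedSet (univ : Set X)).Nonempty := by
    obtain ⟨x, -, hx⟩ := (infinite_univ (α := X)).exists_accPt_of_subset_isCompact
      isCompact_univ subset_rfl
    exact ⟨x, hx⟩
  by_cases hpp : Preperfect (derivedSet (univ : Set X))
  · exact piNet_of_perfect ⟨isClosed_derivedSet _, hpp⟩ hne
  rw [preperfect_iff_nhds] at hpp
  push Not at hpp
  obtain ⟨x, hx, U, hU, hUx⟩ := hpp
  obtain ⟨N, hN, hNU, hNc⟩ := local_compact_nhds hU
  have hNinf : (N \ {x}).Infinite := by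
    have h1 : AccPt x (𝓟 N) := by
      have := AccPt.nhds_inter (mem_derivedSet.1 hx) hN
      simpa using this
    exact (Set.Infinite.of_accPt h1).sdiff (finite_singleton x)
  let a := hNinf.natEmbedding
  refine ⟨x, fun s => (fun k => (a k : X)) '' Ici s.length, ?_, ?_⟩
  · intro s
    apply Set.Infinite.image _ (Ici_infinite _)
    intro i _ j _ hij
    exact a.injective (Subtype.ext hij)
  · intro V hV
    obtain ⟨W, hWV, hWo, hxW⟩ := mem_nhds_iff.1 hV
    have hfin : (N \ W).Finite := by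
      by_contra hinf
      obtain ⟨y, hy, hacc⟩ := Set.Infinite.exists_accPt_of_subset_isCompact hinf
        (hNc.diff hWo) subset_rfl
      have hyD : y ∈ derivedSet (univ : Set X) :=
        mem_derivedSet.2 (hacc.mono (principal_mono.2 (subset_univ _)))
      have := hUx y ⟨hNU hy.1, hyD⟩
      exact hy.2 (this ▸ hxW)
    have hfin2 : ((fun k => (a k : X)) ⁻¹' (N \ W)).Finite := by
      apply hfin.preimage
      intro i _ j _ hij
      exact a.injective (Subtype.ext hij)
    obtain ⟨n, hn⟩ := hfin2.bddAbove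
    refine ⟨List.replicate (n + 1) true, ?_⟩
    rintro _ ⟨k, hk, rfl⟩
    simp only [List.length_replicate, mem_Ici] at hk
    by_contra hkV
    have : k ≤ n := hn ⟨(a k).2.1, fun h => hkV (hWV h)⟩
    omega

end Pool.Agent.Lib.MP_329fc6_gt
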