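import Mathlib
import Pool.Agent.Lib.MP_329fc6_gt.Defs
import Pool.Agent.Lib.MP_329fc6_gt.PiNet

namespace Pool.Agent.Lib.MP_329fc6_gt

open Set Filter Topology
open scoped Pointwise

theorem circle_dist_eq (a b : Circle) : dist a b = ‖(a : ℂ) - (b : ℂ)‖ := by
  rw [← dist_eq_norm]; rfl

theorem circle_eq_one {z : Circle} (hz : ∀ n : ℕ, dist (z ^ n) 1 < 1) : z = 1 := by
  refine Circle.eq_one_of_forall_pow_mem_centeredArc_pi_div_two fun n _ => ?_
  rw [Circle.mem_centeredArc (by linarith [Real.pi_pos])]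
  rw [Complex.abs_arg_lt_pi_div_two_iff]
  left
  have h := hz n
  rw [circle_dist_eq] at h
  have h2 := (Complex.abs_re_le_norm _).trans_lt h
  rw [abs_lt] at h2
  have h3 : (((z ^ n : Circle) : ℂ) - ((1 : Circle) : ℂ)).re = ((z ^ n : Circle) : ℂ).re - 1 := by
    simp
  have h4 := h2.1
  change -1 < (((z ^ n : Circle) : ℂ) - ((1 : Circle) : ℂ)).re at h4
  rw [h3] at h4
  linarith

theorem circle_dist_mul (a b c : Circle) : dist (a * c) (b * c) = dist a b := by
  rw [circle_dist_eq, circle_dist_eq]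
  rw [Circle.coe_mul, Circle.coe_mul, ← sub_mul, norm_mul, Circle.norm_coe, mul_one]

theorem circle_dist_div (a b : Circle) : dist (a / b) 1 = dist a b := by
  rw [← circle_dist_mul (a / b) 1 b]; simp

theorem circle_dist_mul_le (a b : Circle) : dist (a * b) 1 ≤ dist a 1 + dist b 1 := by
  calc dist (a * b) 1 ≤ dist (a * b) (1 * b) + dist (1 * b) 1 := dist_triangle _ _ _
    _ = _ := by rw [circle_dist_mul, one_mul]

theorem circle_dist_div_le (a b : Circle) : dist (a / b) 1 ≤ dist a 1 + dist b 1 := by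
  rw [circle_dist_div]
  calc dist a b ≤ dist a 1 + dist 1 b := dist_triangle _ _ _
    _ = _ := by rw [dist_comm 1 b]

theorem hom_eq_one {G : Type*} [Monoid G] (ψ : G →* Circle) (h : ∀ g, dist (ψ g) 1 < 1) :
    ψ = 1 := by
  ext1 g
  exact circle_eq_one fun n => by simpa using h (g ^ n)

/-- An equicontinuous family of characters of a precompact group is finite. -/
theorem finite_of_equicontinuous {G : Type*} [CommGroup G] [TopologicalSpace G]
    (hG : IsPrecompact G) {W : Set G} (hW : W ∈ 𝓝 (1 : G)) {B : Set (G →* Circle)}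
    (hB : ∀ χ ∈ B, ∀ w ∈ W, dist (χ w) 1 ≤ 1 / 4) : B.Finite := by
  classical
  obtain ⟨F, hFfin, hF⟩ := hG W hW
  have : Finite F := hFfin.to_subtype
  let : Fintype F := Fintype.ofFinite F
  have htb : TotallyBounded (univ : Set (F → Circle)) := isCompact_univ.totallyBounded
  obtain ⟨t, htfin, ht⟩ := Metric.totallyBounded_iff.1 htb (1 / 8) (by norm_num)
  have hch : ∀ χ : G →* Circle, ∃ y ∈ t, dist (fun f : F => χ f) y < 1 / 8 := by
    intro χ
    have := ht (mem_univ (fun f : F => χ f))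
    simpa using this
  choose c hct hc using hch
  refine Set.Finite.of_finite_image (f := c) (htfin.subset ?_) ?_
  · rintro _ ⟨χ, -, rfl⟩; exact hct χ
  · intro χ hχ χ' hχ' hcc
    have : χ / χ' = 1 := by
      apply hom_eq_one
      intro g
      obtain ⟨f, hf, w, hw, rfl⟩ : g ∈ F * W := hF ▸ mem_univ g
      have h1 : dist (χ f) (χ' f) < 1 / 4 := by
        have a1 := (dist_le_pi_dist (fun f : F => χ f) (c χ) ⟨f, hf⟩).trans_lt (hc χ)
        have a2 := (dist_le_pi_dist (fun f : F => χ' f) (c χ') ⟨f, hf⟩).trans_lt (hc χ')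
        rw [← hcc] at a2
        have := dist_triangle_right (χ f) (χ' f) (c χ ⟨f, hf⟩)
        simp only at a1 a2
        linarith
      have h2 := circle_dist_div_le (χ w) (χ' w)
      have h3 := circle_dist_mul_le (χ f / χ' f) (χ w / χ' w)
      rw [circle_dist_div (χ f)] at h3
      have h4 : (χ / χ') (f * w) = χ f / χ' f * (χ w / χ' w) := by
        simp only [MonoidHom.div_apply, map_mul]
      rw [h4]
      linarith [hB χ hχ w hw, hB χ' hχ' w hw]
    exact div_eq_one.1 this

/-- For a precompact Baire group, a pointwise compact family of continuous characters is finite. -/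
theorem finite_of_baire {H : Type*} [CommGroup H] [TopologicalSpace H] [IsTopologicalGroup H]
    [BaireSpace H] (hH : IsPrecompact H) {X : Type*} [TopologicalSpace X] [CompactSpace X]
    [T2Space X] (φ : X → (H →* Circle)) (hinj : Function.Injective φ)
    (h1 : ∀ x, Continuous (φ x)) (h2 : ∀ h, Continuous fun x => φ x h) : Finite X := by
  by_contra hinf
  have : Infinite X := not_finite_iff_infinite.1 hinf
  obtain ⟨x₀, B, hB, hnet⟩ := exists_piNet (X := X)
  let F : List Bool → Set H := fun s => {h | ∀ x ∈ B s, ∀ y ∈ B s, dist (φ x h) (φ y h) ≤ 1 / 8}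
  have hFc : ∀ s, IsClosed (F s) := by
    intro s
    have : F s = ⋂ x ∈ B s, ⋂ y ∈ B s, {h | dist (φ x h) (φ y h) ≤ 1 / 8} := by
      ext h; simp [F]
    rw [this]
    refine isClosed_biInter fun x _ => isClosed_biInter fun y _ => ?_
    exact isClosed_le ((h1 x).dist (h1 y)) continuous_const
  have hFU : ⋃ s, F s = univ := by
    rw [eq_univ_iff_forall]
    intro h
    have hU : (fun x => φ x h) ⁻¹' Metric.ball (φ x₀ h) (1 / 16) ∈ 𝓝 x₀ :=
      (h2 h).continuousAt.preimage_mem_nhds (Metric.ball_mem_nhds _ (by norm_num))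
    obtain ⟨s, hs⟩ := hnet _ hU
    refine mem_iUnion.2 ⟨s, fun x hx y hy => ?_⟩
    have a1 : dist (φ x h) (φ x₀ h) < 1 / 16 := hs hx
    have a2 : dist (φ y h) (φ x₀ h) < 1 / 16 := hs hy
    have := dist_triangle_right (φ x h) (φ y h) (φ x₀ h)
    linarith
  obtain ⟨s, h₀, hh₀⟩ := nonempty_interior_of_iUnion_of_closed hFc hFU
  have hW : (fun w => h₀ * w) ⁻¹' (F s) ∈ 𝓝 (1 : H) := by
    apply (continuous_const.mul continuous_id).continuousAt.preimage_mem_nhds
    simpa using mem_interior_iff_mem_nhds.1 hh₀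
  obtain ⟨x₁, hx₁⟩ := (hB s).nonempty
  have hfin := finite_of_equicontinuous hH hW (B := (fun y => φ y / φ x₁) '' B s) (by
    rintro _ ⟨y, hy, rfl⟩ w hw
    have a1 : dist (φ y (h₀ * w)) (φ x₁ (h₀ * w)) ≤ 1 / 8 := hw y hy x₁ hx₁
    have a2 : dist (φ y h₀) (φ x₁ h₀) ≤ 1 / 8 := interior_subset hh₀ y hy x₁ hx₁
    rw [← circle_dist_div] at a1 a2
    have a3 := circle_dist_div_le (φ y (h₀ * w) / φ x₁ (h₀ * w)) (φ y h₀ / φ x₁ h₀)
    have a4 : (φ y / φ x₁) w = φ y (h₀ * w) / φ x₁ (h₀ * w) / (φ y h₀ / φ x₁ h₀) := by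
      simp only [MonoidHom.div_apply, map_mul]
      rw [mul_div_mul_comm, mul_div_cancel_left]
    rw [a4]
    linarith)
  refine hB s (hfin.of_finite_image ?_)
  intro y _ y' _ hyy
  exact hinj (div_left_injective hyy)

theorem isPrecompact_of_compact (K : Type*) [Group K] [TopologicalSpace K] [IsTopologicalGroup K]
    [CompactSpace K] : IsPrecompact K := by
  intro U hU
  obtain ⟨t, ht⟩ := isCompact_univ.elim_nhds_subcover' (fun (x : K) _ => (fun y => x⁻¹ * y) ⁻¹' U)
    (fun x _ => by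
      apply (continuous_const.mul continuous_id).continuousAt.preimage_mem_nhds
      simpa using hU)
  refine ⟨(fun x => x.1) '' (t : Set (univ : Set K)), t.finite_toSet.image _, ?_⟩
  rw [eq_univ_iff_forall]
  intro y
  have := ht (mem_univ y)
  simp only [mem_iUnion] at this
  obtain ⟨x, hx, hy⟩ := this
  exact ⟨x.1, ⟨x, hx, rfl⟩, x.1⁻¹ * y, hy, by simp⟩

theorem IsPrecompact.of_isInducing {G P : Type*} [Group G] [TopologicalSpace G] [Group P]
    [TopologicalSpace P] [IsTopologicalGroup P] (hP : IsPrecompact P) (f : G →* P)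
    (hf : IsInducing f) : IsPrecompact G := by
  classical
  intro U hU
  rw [hf.nhds_eq_comap, map_one] at hU
  obtain ⟨V, hV, hVU⟩ := hU
  obtain ⟨V', hV', hVV⟩ : ∃ V' ∈ 𝓝 (1 : P), ∀ a ∈ V', ∀ b ∈ V', a⁻¹ * b ∈ V := by
    obtain ⟨V1, hV1, h⟩ := exists_nhds_one_split hV
    refine ⟨V1 ∩ V1⁻¹, inter_mem hV1 (inv_mem_nhds_one P hV1), fun a ha b hb => ?_⟩
    exact h _ ha.2 _ hb.1
  obtain ⟨F, hFfin, hF⟩ := hP V' hV'
  let c : P → G := fun p => if h : ∃ g, p⁻¹ * f g ∈ V' then h.choose else 1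
  refine ⟨c '' F, hFfin.image _, ?_⟩
  rw [eq_univ_iff_forall]
  intro g
  obtain ⟨p, hp, v, hv, hpv⟩ : f g ∈ F * V' := hF ▸ mem_univ _
  have hv' : p⁻¹ * f g ∈ V' := by rw [← hpv]; simpa using hv
  have hex : ∃ g, p⁻¹ * f g ∈ V' := ⟨g, hv'⟩
  have hc : p⁻¹ * f (c p) ∈ V' := by
    simp only [c, dif_pos hex]; exact hex.choose_spec
  refine ⟨c p, ⟨p, hp, rfl⟩, (c p)⁻¹ * g, hVU ?_, by simp⟩
  have := hVV _ hc _ hv'
  simpa [mul_assoc] using this

/-- Glicksberg's theorem for discrete groups: Bohr-compact sets are finite. -/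
theorem finite_of_bohr {A : Type*} [CommGroup A]
    (hsep : ∀ a : A, a ≠ 1 → ∃ χ : A →* Circle, χ a ≠ 1) {X : Type*} [TopologicalSpace X]
    [CompactSpace X] [T2Space X] (ι : X → A) (hinj : Function.Injective ι)
    (hc : ∀ χ : A →* Circle, Continuous fun x => χ (ι x)) : Finite X := by
  let : TopologicalSpace A := ⊥
  have : DiscreteTopology A := ⟨rfl⟩
  let φ : X → (PontryaginDual A →* Circle) := fun x =>
    { toFun := fun χ => χ (ι x), map_one' := rfl, map_mul' := fun _ _ => rfl }
  refine finite_of_baire (isPrecompact_of_compact (PontryaginDual A)) φ ?_ ?_ ?_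
  · intro x y hxy
    by_contra hne
    have h1 : ι x / ι y ≠ 1 := fun h => hne (hinj (div_eq_one.1 h))
    obtain ⟨χ, hχ⟩ := hsep _ h1
    have := DFunLike.congr_fun hxy (⟨χ, continuous_of_discreteTopology⟩ : A →ₜ* Circle)
    apply hχ
    rw [map_div, div_eq_one]
    exact this
  · intro x
    exact continuous_eval_const (F := A →ₜ* Circle) (ι x)
  · intro χ
    exact hc (χ : A →ₜ* Circle).toMonoidHom

/-- If all compact sets are finite, the compact-open topology is the pointwise one. -/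
theorem continuous_dual_of_finite {Y : Type*} [Monoid Y] [TopologicalSpace Y]
    (hY : ∀ C : Set Y, IsCompact C → C.Finite) {X : Type*} [TopologicalSpace X]
    (f : X → PontryaginDual Y) (hf : ∀ y, Continuous fun x => f x y) : Continuous f := by
  have h := ContinuousMonoidHom.isInducing_toContinuousMap Y Circle
  refine (h.continuous_iff (f := f)).2 ?_
  rw [ContinuousMap.continuous_compactOpen]
  intro K hK U hU
  have : {x | MapsTo (f x) K U} = ⋂ y ∈ K, (fun x => f x y) ⁻¹' U := by
    ext x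
    simp only [mem_iInter]
    rfl
  have h2 : IsOpen {x | MapsTo (f x) K U} := by
    rw [this]
    exact (hY K hK).isOpen_biInter fun y _ => hU.preimage (hf y)
  exact h2

end Pool.Agent.Lib.MP_329fc6_gt
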