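import Mathlib

/-! Continuous characters separate the points of a compact Hausdorff abelian group. -/

namespace Pool.Agent.Lib.MP_329fc6_gt

open Set Filter Topology MeasureTheory

theorem char_of_cstar {A : Type*} [CStarAlgebra A] {K : Type*} [CommGroup K] [TopologicalSpace K]
    (U : K →* A) (hstar : ∀ x, star (U x) = U x⁻¹) (T : A)
    (hT : ∀ S : A, (∀ x, U x * S = S * U x) → S * T = T * S)
    (hc : Continuous fun x => U x * T) {g : K} (hg : U g * T ≠ T) :
    ∃ χ : K →* Circle, Continuous χ ∧ χ g ≠ 1 := by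
  let s : Set A := range U
  have hs : s ∪ star s = s := by
    apply union_eq_self_of_subset_right
    rintro a ⟨x, hx⟩
    exact ⟨x⁻¹, by rw [← hstar, hx, star_star]⟩
  let B : StarSubalgebra ℂ A := StarSubalgebra.centralizer ℂ (StarSubalgebra.centralizer ℂ s : Set A)
  have hB : (B : Set A) = s.centralizer.centralizer := by
    rw [StarSubalgebra.coe_centralizer_centralizer, hs]
  have hBc : IsClosed (B : Set A) := hB ▸ Set.isClosed_centralizer _
  have hcomm : ∀ a ∈ s, ∀ b ∈ s, a * b = b * a := by
    rintro _ ⟨x, rfl⟩ _ ⟨y, rfl⟩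
    rw [← map_mul, ← map_mul, mul_comm]
  have hBcomm : ∀ a b : B, a * b = b * a := by
    intro a b
    apply Subtype.ext
    have ha : a.1 ∈ s.centralizer.centralizer := hB ▸ a.2
    have hb : b.1 ∈ s.centralizer.centralizer := hB ▸ b.2
    exact Set.centralizer_centralizer_comm_of_comm hcomm _ ha _ hb
  let inst : CommCStarAlgebra B :=
    { StarSubalgebra.cstarAlgebra B (h_closed := hBc) with mul_comm := hBcomm }
  have hUB : ∀ x, U x ∈ B := fun x => by
    rw [← SetLike.mem_coe, hB]
    exact Set.subset_centralizer_centralizer ⟨x, rfl⟩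
  have hTB : T ∈ B := by
    rw [← SetLike.mem_coe, hB]
    intro S hS
    exact hT S fun x => hS _ ⟨x, rfl⟩
  let u : K → B := fun x => ⟨U x, hUB x⟩
  let t : B := ⟨T, hTB⟩
  have hu1 : u 1 = 1 := Subtype.ext (map_one U)
  have humul : ∀ x y, u (x * y) = u x * u y := fun x y => Subtype.ext (map_mul U x y)
  have hustar : ∀ x, star (u x) = u x⁻¹ := fun x => Subtype.ext (hstar x)
  have hne : u g * t - t ≠ 0 := by
    intro h
    exact hg (congrArg Subtype.val (sub_eq_zero.1 h))
  obtain ⟨φ, hφ⟩ : ∃ φ : WeakDual.characterSpace ℂ B, φ (u g * t - t) ≠ 0 := by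
    by_contra hcon
    push Not at hcon
    apply hne
    apply (gelfandTransform_isometry B).injective
    rw [map_zero]
    ext φ
    exact hcon φ
  rw [map_sub, map_mul] at hφ
  have ht0 : φ t ≠ 0 := by
    intro h; apply hφ; simp [h]
  have hg1 : φ (u g) ≠ 1 := by
    intro h; apply hφ; simp [h]
  have hnorm : ∀ x, ‖φ (u x)‖ = 1 := by
    intro x
    have h1 : star (φ (u x)) * φ (u x) = 1 := by
      rw [← map_star, ← map_mul, hustar, ← humul, inv_mul_cancel, hu1, map_one]
    have h2 := congrArg norm h1
    rw [norm_mul, norm_star, norm_one] at h2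
    nlinarith [norm_nonneg (φ (u x))]
  let χ : K →* Circle :=
    { toFun := fun x => ⟨φ (u x), mem_sphere_zero_iff_norm.2 (hnorm x)⟩
      map_one' := Subtype.ext (by change φ (u 1) = 1; rw [hu1, map_one])
      map_mul' := fun x y => Subtype.ext (by
        change φ (u (x * y)) = φ (u x) * φ (u y); rw [humul, map_mul]) }
  refine ⟨χ, ?_, fun h => hg1 (congrArg Subtype.val h)⟩
  apply Continuous.subtype_mk
  have h1 : Continuous fun x => u x * t := Continuous.subtype_mk hc fun x => (u x * t).2
  have h2 : Continuous fun x => φ (u x * t) / φ t :=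
    ((map_continuous φ).comp h1).div_const _
  convert h2 using 2 with x
  rw [map_mul, mul_div_assoc, div_self ht0, mul_one]

theorem char_of_rep {K : Type*} [CommGroup K] [TopologicalSpace K] [IsTopologicalGroup K]
    [CompactSpace K] [T2Space K] {E : Type*} [NormedAddCommGroup E] [InnerProductSpace ℂ E]
    [CompleteSpace E] (U : K →* (E →L[ℂ] E)) (hiso : ∀ x v, ‖U x v‖ = ‖v‖)
    (hcont : ∀ v, Continuous fun x => U x v) {g : K} (hg : U g ≠ 1) :
    ∃ χ : K →* Circle, Continuous χ ∧ χ g ≠ 1 := by
  borelize K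
  let μ : Measure K := Measure.haar
  have hinner : ∀ x v w, inner ℂ (U x v) (U x w) = inner ℂ v w := fun x v w =>
    LinearIsometry.inner_map_map (⟨(U x).toLinearMap, hiso x⟩ : E →ₗᵢ[ℂ] E) v w
  have happ : ∀ x y v, U x (U y v) = U (x * y) v := fun x y v => by rw [map_mul]; rfl
  have hstar : ∀ x, star (U x) = U x⁻¹ := by
    intro x
    rw [ContinuousLinearMap.star_eq_adjoint]
    symm
    rw [ContinuousLinearMap.eq_adjoint_iff]
    intro v w
    rw [← hinner x, happ, mul_inv_cancel, map_one]; rfl
  have hint : ∀ (f : C(K, ℂ)) (v : E), Integrable (fun z => f z • U z v) μ := fun f v =>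
    (f.continuous.smul (hcont v)).integrable_of_hasCompactSupport
      (HasCompactSupport.of_compactSpace _)
  have hbound : ∀ (f : C(K, ℂ)) (v : E), ‖∫ z, f z • U z v ∂μ‖ ≤ μ.real univ * ‖f‖ * ‖v‖ := by
    intro f v
    have := norm_integral_le_of_norm_le_const (μ := μ) (f := fun z => f z • U z v)
      (C := ‖f‖ * ‖v‖) (Eventually.of_forall fun z => by
        rw [norm_smul, hiso]
        exact mul_le_mul_of_nonneg_right (f.norm_coe_le_norm z) (norm_nonneg _))
    linarith
  let TL : C(K, ℂ) →ₗ[ℂ] E →ₗ[ℂ] E := LinearMap.mk₂ ℂ (fun f v => ∫ z, f z • U z v ∂μ)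
    (fun f f' v => by
      simp only [ContinuousMap.add_apply, add_smul]
      exact integral_add (hint f v) (hint f' v))
    (fun c f v => by
      simp only [ContinuousMap.smul_apply, smul_assoc]
      exact integral_smul _ _)
    (fun f v v' => by
      simp only [map_add, smul_add]
      exact integral_add (hint f v) (hint f v'))
    (fun c f v => by
      simp only [map_smul]
      rw [← integral_smul]
      congr 1
      ext z
      rw [smul_comm])
  let T : C(K, ℂ) →L[ℂ] E →L[ℂ] E := TL.mkContinuous₂ (μ.real univ) hbound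
  have hTapp : ∀ f v, T f v = ∫ z, f z • U z v ∂μ := fun _ _ => rfl
  obtain ⟨h, hh⟩ : ∃ h, U g h ≠ h := by
    by_contra hcon
    push Not at hcon
    exact hg (ContinuousLinearMap.ext hcon)
  let v := U g h - h
  have hv : v ≠ 0 := sub_ne_zero.2 hh
  let f : C(K, ℂ) := ⟨fun z => inner ℂ (U z v) v, (hcont v).inner continuous_const⟩
  have hcommute : ∀ (S : E →L[ℂ] E), (∀ x, U x * S = S * U x) → S * T f = T f * S := by
    intro S hS
    ext w
    change S (T f w) = T f (S w)
    rw [hTapp, hTapp, ← S.integral_comp_comm (hint f w)]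
    congr 1
    ext z
    rw [map_smul]
    congr 1
    exact (congrArg (fun L : E →L[ℂ] E => L w) (hS z)).symm
  let tr : K → C(K, ℂ) := fun x => f.comp ⟨fun z => x⁻¹ * z, by fun_prop⟩
  have htr : Continuous tr :=
    ContinuousMap.continuous_of_continuous_uncurry _
      (f.continuous.comp (by fun_prop : Continuous fun p : K × K => p.1⁻¹ * p.2))
  have hUT : ∀ x, U x * T f = T (tr x) := by
    intro x
    ext w
    change U x (T f w) = T (tr x) w
    rw [hTapp, hTapp, ← (U x).integral_comp_comm (hint f w),
      ← integral_mul_left_eq_self (fun z => tr x z • U z w) x]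
    congr 1
    ext z
    rw [map_smul, happ]
    simp [tr]
  refine char_of_cstar U hstar (T f) hcommute ?_ ?_
  · simp only [hUT]
    exact T.continuous.comp htr
  · intro heq
    have h1 : T f v = 0 := by
      have h2 := hcommute (U g) (fun x => by rw [← map_mul, ← map_mul, mul_comm])
      have h3 : T f (U g h) = T f h := by
        have := congrArg (fun L : E →L[ℂ] E => L h) (h2.symm.trans heq)
        exact this
      simp only [v, map_sub, h3, sub_self]
    have h4 : inner ℂ v (T f v) = ((∫ z, ‖f z‖ ^ 2 ∂μ : ℝ) : ℂ) := by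
      rw [hTapp, ← integral_inner (hint f v), ← integral_complex_ofReal]
      congr 1
      ext z
      rw [inner_smul_right]
      have : inner ℂ v (U z v) = (starRingEnd ℂ) (f z) := by
        simp [f]
      rw [this, Complex.mul_conj']
      simp
    have h5 : 0 < ∫ z, ‖f z‖ ^ 2 ∂μ := by
      refine Continuous.integral_pos_of_hasCompactSupport_nonneg_nonzero (x := 1)
        (by fun_prop) (HasCompactSupport.of_compactSpace _) (fun z => by positivity) ?_
      simp [f, hv]
    rw [h1, inner_zero_right] at h4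
    have h6 : (∫ z, ‖f z‖ ^ 2 ∂μ : ℝ) = 0 := by exact_mod_cast h4.symm
    linarith

theorem exists_char_of_compact {K : Type*} [CommGroup K] [TopologicalSpace K]
    [IsTopologicalGroup K] [CompactSpace K] [T2Space K] {g : K} (hg : g ≠ 1) :
    ∃ χ : K →* Circle, Continuous χ ∧ χ g ≠ 1 := by
  borelize K
  let μ : Measure K := Measure.haar
  have hmp : ∀ x : K, MeasurePreserving (fun z => x * z) μ μ := fun x =>
    measurePreserving_mul_left μ x
  let U : K →* (Lp ℂ 2 μ →L[ℂ] Lp ℂ 2 μ) :=
    { toFun := fun x => (Lp.compMeasurePreservingₗᵢ ℂ (fun z => x * z) (hmp x)).toContinuousLinearMap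
      map_one' := by
        ext1 v
        change Lp.compMeasurePreserving (fun z => 1 * z) (hmp 1) v = v
        convert Lp.compMeasurePreserving_id_apply v using 3
        ext z; simp
      map_mul' := fun x y => by
        ext1 v
        change Lp.compMeasurePreserving (fun z => x * y * z) (hmp _) v =
          Lp.compMeasurePreserving (fun z => x * z) (hmp x)
            (Lp.compMeasurePreserving (fun z => y * z) (hmp y) v)
        rw [← Lp.compMeasurePreserving_comp_apply]
        congr 2
        ext z
        simp [mul_left_comm, mul_assoc] }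
  have hU : ∀ x v, U x v = Lp.compMeasurePreserving (fun z => x * z) (hmp x) v := fun _ _ => rfl
  refine char_of_rep U (fun x v => by rw [hU, Lp.norm_compMeasurePreserving]) ?_ ?_
  · intro v
    let m : K → C(K, K) := fun x => ⟨fun z => x * z, by fun_prop⟩
    have hm : Continuous m := ContinuousMap.continuous_of_continuous_uncurry _
      (by fun_prop : Continuous fun p : K × K => p.1 * p.2)
    exact Continuous.compMeasurePreservingLp (f := fun _ : K => v) (g := m) continuous_const hm
      hmp (by simp)
  · intro h1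
    obtain ⟨f, hf0, hf1, -⟩ := exists_continuous_zero_one_of_isClosed
      (isClosed_singleton (x := (1 : K))) (isClosed_singleton (x := g))
      (disjoint_singleton.2 hg.symm)
    let F : C(K, ℂ) := ⟨fun z => (f z : ℂ), by fun_prop⟩
    have h2 : U g (ContinuousMap.toLp 2 μ ℂ F) = ContinuousMap.toLp 2 μ ℂ F := by rw [h1]; rfl
    have h3 := Lp.coeFn_compMeasurePreserving (ContinuousMap.toLp 2 μ ℂ F) (hmp g)
    rw [← hU, h2] at h3
    have h4 : (ContinuousMap.toLp 2 μ ℂ F : K → ℂ) =ᵐ[μ] F := ContinuousMap.coeFn_toLp μ F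
    have h5 : ((ContinuousMap.toLp 2 μ ℂ F : K → ℂ) ∘ fun z => g * z) =ᵐ[μ] (F ∘ fun z => g * z) :=
      (hmp g).quasiMeasurePreserving.ae_eq_comp h4
    have h6 : (F : K → ℂ) =ᵐ[μ] (F ∘ fun z => g * z) := h4.symm.trans (h3.trans h5)
    rw [Continuous.ae_eq_iff_eq μ F.continuous (by fun_prop)] at h6
    have h7 := congrFun h6 1
    have a0 : f 1 = 0 := hf0 rfl
    have a1 : f g = 1 := hf1 rfl
    simp [F, a0, a1] at h7

end Pool.Agent.Lib.MP_329fc6_gt
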