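import Mathlib
import Pool.Agent.Lib.MP_329fc6_gt.Basic
import Pool.Agent.Lib.MP_329fc6_gt.PW

namespace Pool.Agent.Lib.MP_329fc6_gt

open Set Filter Topology MeasureTheory
open scoped Pointwise

theorem integral_char_eq_zero {K : Type*} [CommGroup K] [TopologicalSpace K]
    [IsTopologicalGroup K] [MeasurableSpace K] [BorelSpace K] (μ : Measure K)
    [μ.IsMulLeftInvariant] (ψ : PontryaginDual K) (hψ : ψ ≠ 1) :
    ∫ z, ((ψ z : Circle) : ℂ) ∂μ = 0 := by
  obtain ⟨g, hg⟩ : ∃ g, ψ g ≠ 1 := by
    by_contra hcon
    push Not at hcon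
    exact hψ (PontryaginDual.ext hcon)
  have h1 := integral_mul_left_eq_self (μ := μ) (fun z => ((ψ z : Circle) : ℂ)) g
  simp only [map_mul, Circle.coe_mul] at h1
  rw [integral_const_mul] at h1
  have h2 : (((ψ g : Circle) : ℂ) - 1) * ∫ z, ((ψ z : Circle) : ℂ) ∂μ = 0 := by
    rw [sub_mul, h1]; simp
  rcases mul_eq_zero.1 h2 with h | h
  · exact absurd (Circle.ext (by simpa using sub_eq_zero.1 h)) hg
  · exact h

/-- A point separating subgroup of the dual of a compact group is the whole dual. -/
theorem mem_of_separating {K : Type*} [CommGroup K] [TopologicalSpace K] [IsTopologicalGroup K]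
    [CompactSpace K] [T2Space K] (Γ : Subgroup (PontryaginDual K))
    (hsep : ∀ k : K, (∀ γ ∈ Γ, γ k = 1) → k = 1) (χ : PontryaginDual K) : χ ∈ Γ := by
  borelize K
  let μ : Measure K := Measure.haar
  by_contra hχ
  let c : PontryaginDual K → C(K, ℂ) := fun γ =>
    ⟨fun z => ((γ z : Circle) : ℂ), continuous_subtype_val.comp (map_continuous γ)⟩
  let s : Set C(K, ℂ) := c '' Γ
  let A : StarSubalgebra ℂ C(K, ℂ) :=
    { toSubalgebra := Algebra.adjoin ℂ s
      star_mem' := by
        change Algebra.adjoin ℂ s ≤ star (Algebra.adjoin ℂ s)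
        refine Algebra.adjoin_le ?_
        rintro - ⟨γ, hγ, rfl⟩
        refine Algebra.subset_adjoin ⟨γ⁻¹, Γ.inv_mem hγ, ?_⟩
        ext z
        change (((γ z)⁻¹ : Circle) : ℂ) = star ((γ z : Circle) : ℂ)
        rw [Circle.coe_inv_eq_conj]; rfl }
  have hA : Subalgebra.toSubmodule A.toSubalgebra = Submodule.span ℂ s := by
    apply Algebra.adjoin_eq_span_of_subset
    refine Subset.trans ?_ Submodule.subset_span
    intro x hx
    refine Submonoid.closure_induction (fun _ => id) ⟨1, Γ.one_mem, ?_⟩ ?_ hx
    · ext1 z; rfl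
    · rintro - - - - ⟨m, hm, rfl⟩ ⟨n, hn, rfl⟩
      refine ⟨m * n, Γ.mul_mem hm hn, ?_⟩
      ext1 z
      rfl
  have hAsep : A.SeparatesPoints := by
    intro x y hxy
    by_contra hcon
    push Not at hcon
    apply hxy
    rw [← div_eq_one]
    apply hsep
    intro γ hγ
    have := hcon (c γ) ⟨c γ, Algebra.subset_adjoin ⟨γ, hγ, rfl⟩, rfl⟩
    rw [map_div, div_eq_one]
    exact Circle.ext this
  have htop := ContinuousMap.starSubalgebra_topologicalClosure_eq_top_of_separatesPoints A hAsep
  have hdense : (Submodule.span ℂ s).topologicalClosure = ⊤ := by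
    rw [← hA]
    exact congr_arg (Subalgebra.toSubmodule <| StarSubalgebra.toSubalgebra ·) htop
  have hint : ∀ f : C(K, ℂ), Integrable f μ := fun f =>
    f.continuous.integrable_of_hasCompactSupport (HasCompactSupport.of_compactSpace _)
  let L0 : C(K, ℂ) →ₗ[ℂ] ℂ :=
    { toFun := fun f => ∫ z, f z ∂μ
      map_add' := fun f g => integral_add (hint f) (hint g)
      map_smul' := fun a f => integral_smul a f }
  let L1 : C(K, ℂ) →L[ℂ] ℂ := L0.mkContinuous (μ.real univ) fun f => by
    have := norm_integral_le_of_norm_le_const (μ := μ) (f := fun z => f z) (C := ‖f‖)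
      (Eventually.of_forall fun z => f.norm_coe_le_norm z)
    change ‖∫ z, f z ∂μ‖ ≤ _
    linarith
  let L : C(K, ℂ) →L[ℂ] ℂ := L1.comp (ContinuousLinearMap.mul ℂ C(K, ℂ) (c χ⁻¹))
  have hL : ∀ γ, L (c γ) = ∫ z, (((χ⁻¹ * γ) z : Circle) : ℂ) ∂μ := fun γ => rfl
  have hker : (Submodule.span ℂ s).topologicalClosure ≤ L.ker := by
    apply Submodule.topologicalClosure_minimal _ _ L.isClosed_ker
    rw [Submodule.span_le]
    rintro - ⟨γ, hγ, rfl⟩
    change L (c γ) = 0
    rw [hL]
    apply integral_char_eq_zero
    intro h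
    apply hχ
    rw [inv_mul_eq_one] at h
    exact h ▸ hγ
  have h0 : L (c χ) = 0 := hker (hdense ▸ Submodule.mem_top)
  rw [hL, inv_mul_cancel] at h0
  simp only [PontryaginDual.one_apply, Circle.coe_one, integral_const, Complex.real_smul,
    mul_one, Complex.ofReal_eq_zero] at h0
  have : μ univ = 0 := by
    rwa [measureReal_eq_zero_iff (measure_ne_top μ univ)] at h0
  exact (isOpen_univ.measure_pos μ univ_nonempty).ne' this

/-- Comfort-Ross duality: a character continuous for the weak topology is an evaluation. -/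
theorem exists_eval_of_inducing {A : Type*} [CommGroup A] [TopologicalSpace A] {G : Type*}
    [Group G] (ev : G →* (A →* Circle)) (hind : IsInducing fun (a : A) (g : G) => ev g a)
    (Φ : A →* Circle) (hΦ : Continuous Φ) : ∃ g, Φ = ev g := by
  let ρ : A →* (G → Circle) × Circle := (MonoidHom.pi fun g => ev g).prod Φ
  let K : Subgroup ((G → Circle) × Circle) := ρ.range.topologicalClosure
  have hKc : IsClosed (K : Set ((G → Circle) × Circle)) := Subgroup.isClosed_topologicalClosure _
  have : CompactSpace K := isCompact_iff_compactSpace.1 hKc.isCompact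
  let p : G → PontryaginDual K := fun g =>
    (⟨((Pi.evalMonoidHom (fun _ : G => Circle) g).comp (MonoidHom.fst _ _)).comp K.subtype,
      (continuous_apply g).comp (continuous_fst.comp continuous_subtype_val)⟩ : K →ₜ* Circle)
  let q : PontryaginDual K :=
    (⟨(MonoidHom.snd _ _).comp K.subtype, continuous_snd.comp continuous_subtype_val⟩ :
      K →ₜ* Circle)
  obtain ⟨O, hOo, hO1, hO⟩ : ∃ O : Set (G → Circle), IsOpen O ∧ 1 ∈ O ∧
      ∀ a, (fun g => ev g a) ∈ O → dist (Φ a) 1 ≤ 1 / 2 := by
    have h1 : IsOpen (Φ ⁻¹' Metric.ball 1 (1 / 2)) := Metric.isOpen_ball.preimage hΦ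
    obtain ⟨O, hOo, hO⟩ := hind.isOpen_iff.1 h1
    refine ⟨O, hOo, ?_, fun a ha => ?_⟩
    · have : (1 : A) ∈ Φ ⁻¹' Metric.ball 1 (1 / 2) := by simp
      rw [← hO] at this
      convert this using 1
      simp only [mem_preimage, map_one]
      rfl
    · have : a ∈ Φ ⁻¹' Metric.ball 1 (1 / 2) := hO ▸ ha
      exact le_of_lt this
  have hK : ∀ k ∈ K, k.1 = 1 → dist k.2 1 ≤ 1 / 2 := by
    intro k hk hk1
    have hcl : IsClosed {k : (G → Circle) × Circle | k.1 ∉ O ∨ dist k.2 1 ≤ 1 / 2} :=
      (hOo.isClosed_compl.preimage continuous_fst).union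
        (isClosed_le (continuous_snd.dist continuous_const) continuous_const)
    have hsub : (K : Set _) ⊆ {k : (G → Circle) × Circle | k.1 ∉ O ∨ dist k.2 1 ≤ 1 / 2} := by
      apply closure_minimal _ hcl
      rintro _ ⟨a, rfl⟩
      by_cases ha : (fun g => ev g a) ∈ O
      · exact Or.inr (hO a ha)
      · exact Or.inl ha
    rcases hsub hk with h | h
    · exact absurd (hk1 ▸ hO1) h
    · exact h
  have hq := mem_of_separating (Subgroup.closure (range p)) (fun k hk => by
    have h1 : k.1.1 = 1 := funext fun g => hk (p g) (Subgroup.subset_closure ⟨g, rfl⟩)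
    have h2 : k.1.2 = 1 := circle_eq_one fun n => by
      have := hK (k.1 ^ n) (K.pow_mem k.2 n) (by simp [h1])
      simp only [Prod.pow_snd] at this
      linarith
    exact Subtype.ext (Prod.ext h1 h2)) q
  let r : A → K := fun a => ⟨ρ a, Subgroup.le_topologicalClosure _ ⟨a, rfl⟩⟩
  have key : ∀ ψ ∈ Subgroup.closure (range p), ∃ g, ∀ a, ψ (r a) = ev g a := by
    intro ψ hψ
    induction hψ using Subgroup.closure_induction with
    | mem x hx => obtain ⟨g, rfl⟩ := hx; exact ⟨g, fun a => rfl⟩
    | one => exact ⟨1, fun a => by simp⟩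
    | mul x y _ _ hx hy =>
      obtain ⟨g, hg⟩ := hx
      obtain ⟨g', hg'⟩ := hy
      exact ⟨g * g', fun a => by rw [map_mul, MonoidHom.mul_apply, ← hg, ← hg']; rfl⟩
    | inv x _ hx =>
      obtain ⟨g, hg⟩ := hx
      exact ⟨g⁻¹, fun a => by rw [map_inv, MonoidHom.inv_apply, ← hg]; rfl⟩
  obtain ⟨g, hg⟩ := key q hq
  exact ⟨g, MonoidHom.ext hg⟩

/-- The topology of a compact Hausdorff abelian group is induced by its characters. -/
theorem isInducing_of_compact (K : Type*) [CommGroup K] [TopologicalSpace K]
    [IsTopologicalGroup K] [CompactSpace K] [T2Space K] :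
    IsInducing fun (k : K) (χ : PontryaginDual K) => χ k := by
  have hc : Continuous fun (k : K) (χ : PontryaginDual K) => χ k :=
    continuous_pi fun χ => map_continuous χ
  refine (hc.isClosedEmbedding ?_).isInducing
  intro x y hxy
  by_contra hne
  obtain ⟨χ, hχc, hχ⟩ := exists_char_of_compact (g := x / y) (fun h => hne (div_eq_one.1 h))
  apply hχ
  rw [map_div, div_eq_one]
  exact congrFun hxy (⟨χ, hχc⟩ : K →ₜ* Circle)

theorem isInducing_char_of_hom {G P : Type*} [CommGroup G] [TopologicalSpace G] [CommGroup P]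
    [TopologicalSpace P] (f : G →* P) (hf : IsInducing f)
    (hP : IsInducing fun (k : P) (χ : PontryaginDual P) => χ k) :
    IsInducing fun (k : G) (χ : PontryaginDual G) => χ k := by
  let fc : G →ₜ* P := ⟨f, hf.continuous⟩
  refine IsInducing.of_comp (g := fun (t : PontryaginDual G → Circle) (χ : PontryaginDual P) =>
    t (PontryaginDual.map fc χ)) (continuous_pi fun χ => map_continuous χ)
    (continuous_pi fun χ => continuous_apply _) ?_
  exact hP.comp hf

/-- The topology of a precompact Hausdorff abelian group is induced by its characters. -/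
theorem IsPrecompact.isInducing_char {H : Type*} [CommGroup H] [TopologicalSpace H]
    [IsTopologicalGroup H] (hH : IsPrecompact H) :
    IsInducing fun (k : H) (χ : PontryaginDual H) => χ k := by
  let : UniformSpace (Additive H) := IsTopologicalAddGroup.rightUniformSpace (Additive H)
  have : IsUniformAddGroup (Additive H) := isUniformAddGroup_of_addCommGroup
  have htb : TotallyBounded (univ : Set (Additive H)) := by
    rw [totallyBounded_iff_subset_finite_iUnion_nhds_zero]
    intro U hU
    obtain ⟨F, hF, hFU⟩ := hH U hU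
    refine ⟨F, hF, fun x _ => ?_⟩
    obtain ⟨a, ha, b, hb, hab⟩ : Additive.toMul x ∈ F * (show Set H from U) := hFU ▸ mem_univ _
    exact mem_iUnion₂.2 ⟨a, ha, b, hb, hab⟩
  let K := UniformSpace.Completion (Additive H)
  have : CompactSpace K := by
    constructor
    rw [isCompact_iff_totallyBounded_isComplete]
    refine ⟨?_, completeSpace_iff_isComplete_univ.1 inferInstance⟩
    have h1 := (htb.image (UniformSpace.Completion.uniformContinuous_coe (Additive H))).closure
    rwa [image_univ, (UniformSpace.Completion.denseRange_coe).closure_range] at h1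
  let f : H →* Multiplicative K :=
    AddMonoidHom.toMultiplicativeRight (UniformSpace.Completion.toCompl (α := Additive H))
  have hf : IsInducing f :=
    (UniformSpace.Completion.isUniformInducing_coe (Additive H)).isInducing
  have : T2Space (Multiplicative K) := inferInstanceAs (T2Space K)
  exact isInducing_char_of_hom f hf (isInducing_of_compact _)

/-- Precompact Baire groups without infinite compact subsets are reflexive. -/
theorem isReflexive_of_finite {G : Type*} [CommGroup G] [TopologicalSpace G]
    [IsTopologicalGroup G] [T2Space G] [BaireSpace G] (hG : IsPrecompact G)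
    (hfin : ∀ C : Set G, IsCompact C → C.Finite) : IsReflexive G := by
  let α : G →* PontryaginDual (PontryaginDual G) :=
    { toFun := fun g => (⟨{ toFun := fun χ => χ g, map_one' := rfl, map_mul' := fun _ _ => rfl },
        continuous_eval_const (F := G →ₜ* Circle) g⟩ : PontryaginDual G →ₜ* Circle)
      map_one' := PontryaginDual.ext fun χ => map_one χ
      map_mul' := fun x y => PontryaginDual.ext fun χ => map_mul χ x y }
  have hα : ∀ g χ, α g χ = χ g := fun _ _ => rfl
  have hfin2 : ∀ C : Set (PontryaginDual G), IsCompact C → C.Finite := by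
    intro C hC
    have : CompactSpace C := isCompact_iff_compactSpace.1 hC
    refine finite_of_baire hG (X := C) (fun x => (x.1 : G →ₜ* Circle).toMonoidHom) ?_ ?_ ?_
    · intro x y hxy
      exact Subtype.ext (PontryaginDual.ext fun g => DFunLike.congr_fun hxy g)
    · intro x; exact map_continuous x.1
    · intro g
      exact (continuous_eval_const (F := G →ₜ* Circle) g).comp continuous_subtype_val
  have hαc : Continuous α := continuous_dual_of_finite hfin2 α fun χ => map_continuous χ
  have hαi : IsInducing α := by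
    refine IsInducing.of_comp (g := fun (Φ : PontryaginDual (PontryaginDual G)) χ => Φ χ) hαc
      (continuous_pi fun χ => continuous_eval_const (F := PontryaginDual G →ₜ* Circle) χ) ?_
    exact hG.isInducing_char
  have hind : IsInducing fun (χ : PontryaginDual G) (g : G) => χ g := by
    refine ⟨le_antisymm ?_ ?_⟩
    · exact continuous_iff_le_induced.1
        (continuous_pi fun g => continuous_eval_const (F := G →ₜ* Circle) g)
    · rw [← continuous_id_iff_le]
      refine @continuous_dual_of_finite G _ _ hfin (PontryaginDual G)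
        (TopologicalSpace.induced (fun (χ : PontryaginDual G) (g : G) => χ g) inferInstance) id ?_
      intro g
      let t := TopologicalSpace.induced (fun (χ : PontryaginDual G) (g : G) => χ g) inferInstance
      exact @Continuous.comp _ _ _ t _ _ _ _ (continuous_apply g) continuous_induced_dom
  have hsurj : Function.Surjective α := by
    intro Φ
    let ev : G →* (PontryaginDual G →* Circle) :=
      { toFun := fun g => (α g : PontryaginDual G →ₜ* Circle).toMonoidHom
        map_one' := by rw [map_one]; rfl
        map_mul' := fun x y => by rw [map_mul]; rfl }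
    obtain ⟨g, hg⟩ := exists_eval_of_inducing ev hind
      (Φ : PontryaginDual G →ₜ* Circle).toMonoidHom (map_continuous Φ)
    exact ⟨g, PontryaginDual.ext fun χ => (DFunLike.congr_fun hg χ).symm⟩
  let e := MulEquiv.ofBijective α ⟨hαi.injective, hsurj⟩
  refine ⟨⟨e, hαc, ?_⟩, hα⟩
  refine (hαi.continuous_iff (f := e.symm)).2 ?_
  convert continuous_id using 1
  ext1 Φ
  exact e.apply_symm_apply Φ

end Pool.Agent.Lib.MP_329fc6_gt
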