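import Mathlib
import Pool.Agent.Lib.MP_329fc6_gt.Duality
import Pool.Agent.Lib.MP_329fc6_gt.BaireProd

namespace Pool.Agent.Lib.MP_329fc6_gt

open Set Filter Topology
open scoped Pointwise

universe u

theorem uncountable_circle : Uncountable Circle := by
  have h : Function.Injective fun t : Ioc (-Real.pi) Real.pi => Circle.exp t := fun a b hab =>
    Subtype.ext (Circle.exp_injOn_Ioc (by linarith) a.2 b.2 hab)
  have : Uncountable (Ioc (-Real.pi) Real.pi) := by
    rw [← Cardinal.aleph0_lt_mk_iff, Cardinal.mk_Ioc_real (by linarith [Real.pi_pos])]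
    exact Cardinal.aleph0_lt_continuum
  exact h.uncountable

/-- The homomorphism from the free abelian group determined by values on the basis. -/
noncomputable def liftF {X M : Type*} [CommGroup M] (g : X → M) :
    Multiplicative (X →₀ ℤ) →* M where
  toFun f := f.toAdd.prod fun x n => g x ^ n
  map_one' := by simp
  map_mul' a b := by
    rw [toAdd_mul, Finsupp.prod_add_index'] <;> simp [zpow_add]

theorem liftF_single {X M : Type*} [CommGroup M] (g : X → M) (x : X) :
    liftF g (Multiplicative.ofAdd (Finsupp.single x 1)) = g x := by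
  simp [liftF]

theorem map_liftF {X M N : Type*} [CommGroup M] [CommGroup N] (φ : M →* N) (g : X → M)
    (f : Multiplicative (X →₀ ℤ)) : φ (liftF g f) = liftF (φ ∘ g) f := by
  simp [liftF, Finsupp.prod, map_prod]

theorem liftF_congr {X M : Type*} [CommGroup M] {g g' : X → M} {f : Multiplicative (X →₀ ℤ)}
    (h : ∀ x ∈ f.toAdd.support, g x = g' x) : liftF g f = liftF g' f :=
  Finsupp.prod_congr fun x hx => by rw [h x hx]

theorem eq_liftF {X M : Type*} [CommGroup M] (χ : Multiplicative (X →₀ ℤ) →* M) :
    χ = liftF fun x => χ (Multiplicative.ofAdd (Finsupp.single x 1)) := by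
  apply Finsupp.mulHom_ext
  intro x n
  have : Multiplicative.ofAdd (Finsupp.single x n) =
      Multiplicative.ofAdd (Finsupp.single x (1 : ℤ)) ^ n := by
    rw [← ofAdd_zsmul]; simp
  rw [this, map_zpow, map_zpow, liftF_single]

theorem exists_zpow_ne_one {n : ℤ} (hn : n ≠ 0) : ∃ z : Circle, z ^ n ≠ 1 := by
  refine ⟨Circle.exp (Real.pi / n), ?_⟩
  rw [← Circle.exp_intCast_mul, mul_div_cancel₀ _ (by exact_mod_cast hn)]
  exact Circle.exp_pi_ne_one

theorem liftF_update {X : Type*} [DecidableEq X] (f : Multiplicative (X →₀ ℤ)) (x : X)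
    (z : Circle) : liftF (Pi.mulSingle x z : X → Circle) f = z ^ (f.toAdd x) := by
  change f.toAdd.prod (fun y n => (Pi.mulSingle x z : X → Circle) y ^ n) = _
  rw [Finsupp.prod_eq_single x]
  · simp
  · intro y _ hy
    simp [Pi.mulSingle_eq_of_ne hy]
  · simp

theorem free_sep {X : Type*} (f : Multiplicative (X →₀ ℤ)) (hf : f ≠ 1) :
    ∃ χ : Multiplicative (X →₀ ℤ) →* Circle, χ f ≠ 1 := by
  classical
  obtain ⟨x, hx⟩ : ∃ x, f.toAdd x ≠ 0 := by
    by_contra hcon
    push Not at hcon
    exact hf (Multiplicative.ext (Finsupp.ext hcon))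
  obtain ⟨z, hz⟩ := exists_zpow_ne_one hx
  exact ⟨liftF (Pi.mulSingle x z), by rwa [liftF_update]⟩

/-- Value attached to a key by a countable table, with a default. -/
noncomputable def lookup {α : Type*} (J : ℕ → α × Circle) (a : α) (d : Circle) : Circle :=
  open Classical in if h : ∃ n, (J n).1 = a then (J h.choose).2 else d

theorem lookup_of_mem {α : Type*} (s : ℕ → α) (t : α → Circle) {a : α} (ha : a ∈ range s)
    (d : Circle) : lookup (fun n => (s n, t (s n))) a d = t a := by
  have h : ∃ n, ((fun n => (s n, t (s n))) n).1 = a := ha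
  rw [lookup, dif_pos h]
  exact congrArg t h.choose_spec

theorem lookup_of_notMem {α : Type*} (J : ℕ → α × Circle) {a : α} (ha : ∀ n, (J n).1 ≠ a)
    (d : Circle) : lookup J a d = d := by
  rw [lookup, dif_neg (not_exists.2 ha)]

theorem exists_index (H : Type u) [Nonempty H] : ∃ (X : Type u) (_ : Nonempty X)
    (s : X → (H × (ℕ → (ℕ → X × Circle) × Circle)) × Circle), Function.Surjective s := by
  refine ⟨ℕ → H × Circle, inferInstance, ?_⟩
  have : Nonempty ((ℕ → H × Circle) ≃
      (H × (ℕ → (ℕ → (ℕ → H × Circle) × Circle) × Circle)) × Circle) := by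
    rw [← Cardinal.eq]
    have hC : Uncountable Circle := uncountable_circle
    set c := Cardinal.lift.{u} (Cardinal.mk Circle) with hc
    set h := Cardinal.mk H with hh
    have hc0 : Cardinal.aleph0 ≤ c := by simp [hc]
    have hh0 : h ≠ 0 := Cardinal.mk_ne_zero H
    have hμ : Cardinal.aleph0 ≤ h * c :=
      hc0.trans (Cardinal.le_mul_left hh0)
    set κ := (h * c) ^ Cardinal.aleph0.{u} with hκ
    have hμκ : h * c ≤ κ := Cardinal.self_le_power _ Cardinal.one_le_aleph0
    have hκ0 : Cardinal.aleph0 ≤ κ := hμ.trans hμκ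
    have hcκ : c ≤ κ := (Cardinal.le_mul_left hh0).trans hμκ
    have hc0' : c ≠ 0 := (Cardinal.aleph0_pos.trans_le hc0).ne'
    have hhκ : h ≤ κ := (Cardinal.le_mul_right hc0').trans hμκ
    have e1 : κ * c = κ := Cardinal.mul_eq_left hκ0 hcκ hc0'
    have e2 : κ ^ Cardinal.aleph0.{u} = κ := by
      rw [hκ, ← Cardinal.power_mul, Cardinal.aleph0_mul_aleph0]
    have e3 : h * κ = κ := Cardinal.mul_eq_right hκ0 hhκ hh0
    simp only [Cardinal.mk_prod, Cardinal.mk_arrow, Cardinal.lift_uzero, Cardinal.mk_nat,
      Cardinal.lift_aleph0, Cardinal.lift_id, ← hc, ← hh, ← hκ, e1, e2, e3]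
  obtain ⟨e⟩ := this
  exact ⟨e, e.surjective⟩

theorem exists_family (H : Type u) [Nonempty H] : ∃ (X I : Type u) (p : X → H) (c : X → I → Circle),
    (∀ (h : H) (t : I → Circle) (J : Set I), J.Countable → ∃ x, p x = h ∧ ∀ i ∈ J, c x i = t i) ∧
    (∀ (A : Set X) (t : X → Circle), A.Countable → ∃ i, ∀ x ∈ A, c x i = t x) := by
  obtain ⟨X, ⟨x₀⟩, s, hs⟩ := exists_index H
  refine ⟨X, ℕ → X × Circle, fun x => (s x).1.1, fun x i => lookup i x (lookup (s x).1.2 i 1),
    ?_, ?_⟩
  · intro h t J hJ
    obtain ⟨a, ha⟩ := (hJ.insert fun _ => (x₀, 1)).exists_eq_range (insert_nonempty _ _)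
    let r : H × (ℕ → (ℕ → X × Circle) × Circle) := (h, fun n => (a n, t (a n)))
    obtain ⟨x, hx, hxn⟩ : ∃ x, (s x).1 = r ∧ ∀ m n, (a m n).1 ≠ x := by
      by_contra hcon
      push Not at hcon
      have hcount : (univ : Set Circle).Countable := by
        refine (countable_range fun mn : ℕ × ℕ => (s (a mn.1 mn.2).1).2).mono fun z _ => ?_
        obtain ⟨x, hx⟩ := hs (r, z)
        obtain ⟨m, n, hmn⟩ := hcon x (by rw [hx])
        exact ⟨(m, n), by simp only [hmn, hx]⟩
      have := uncountable_circle
      exact not_countable_univ hcount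
    refine ⟨x, congrArg Prod.fst hx, fun i hi => ?_⟩
    have hi' : i ∈ range a := ha ▸ mem_insert_of_mem _ hi
    obtain ⟨m, hm⟩ := hi'
    beta_reduce
    rw [lookup_of_notMem i (fun n => hm ▸ hxn m n), hx]
    exact lookup_of_mem a t ⟨m, hm⟩ 1
  · intro A t hA
    obtain ⟨a, ha⟩ := (hA.insert x₀).exists_eq_range (insert_nonempty _ _)
    exact ⟨fun n => (a n, t (a n)), fun x hx =>
      lookup_of_mem a t (ha ▸ mem_insert_of_mem _ hx) _⟩

theorem quotient_of_reflexive (H : Type u) [CommGroup H] [TopologicalSpace H]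
    [IsTopologicalGroup H] [BaireSpace H] (hH : IsPrecompact H) :
    ∃ (G : Type u) (_ : CommGroup G) (_ : TopologicalSpace G) (_ : IsTopologicalGroup G)
      (_ : T2Space G), IsPrecompact G ∧ BaireSpace G ∧ IsReflexive G ∧
      ∃ π : G →* H, Continuous π ∧ IsOpenMap π ∧ Function.Surjective π := by
  classical
  obtain ⟨X, I, p, c, hP, hE⟩ := exists_family H
  let G := Multiplicative (X →₀ ℤ)
  let j : G →* H × (I → Circle) := liftF fun x => (p x, c x)
  let : TopologicalSpace G := TopologicalSpace.induced j inferInstance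
  have hj : IsInducing j := ⟨rfl⟩
  have : IsTopologicalGroup G := topologicalGroup_induced j
  have hcoord : ∀ (f : G) (i : I), (j f).2 i = liftF (fun x => c x i) f := fun f i =>
    map_liftF ((Pi.evalMonoidHom (fun _ : I => Circle) i).comp (MonoidHom.snd H _)) _ f
  have hcc : ∀ i, Continuous fun f : G => (j f).2 i := fun i =>
    (continuous_apply i).comp (continuous_snd.comp hj.continuous)
  have hext : ∀ (A : Set X), A.Countable → ∀ χ : G →* Circle, ∃ i, ∀ f : G,
      (f.toAdd.support : Set X) ⊆ A → (j f).2 i = χ f := by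
    intro A hA χ
    obtain ⟨i, hi⟩ := hE A (fun x => χ (Multiplicative.ofAdd (Finsupp.single x 1))) hA
    refine ⟨i, fun f hf => ?_⟩
    rw [hcoord, liftF_congr fun x hx => hi x (hf hx), ← eq_liftF]
  have hinj : Function.Injective j := by
    rw [injective_iff_map_eq_one]
    intro f hf
    by_contra hne
    obtain ⟨χ, hχ⟩ := free_sep f hne
    obtain ⟨i, hi⟩ := hext _ f.toAdd.support.countable_toSet χ
    apply hχ
    rw [← hi f subset_rfl, hf]; rfl
  have hT2 : T2Space G := by
    refine T2Space.of_injective_continuous (f := fun f : G => (j f).2) ?_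
      (continuous_snd.comp hj.continuous)
    intro f f' hff
    by_contra hne
    obtain ⟨χ, hχ⟩ := free_sep (f / f') fun h => hne (div_eq_one.1 h)
    obtain ⟨i, hi⟩ := hext _ (f / f').toAdd.support.countable_toSet χ
    apply hχ
    rw [← hi _ subset_rfl, map_div]
    have : (j f).2 = (j f').2 := hff
    simp [this]
  have hP' : ∀ (h : H) (t : I → Circle) (J : Set I), J.Countable →
      ∃ g, (j g).1 = h ∧ ∀ i ∈ J, (j g).2 i = t i := by
    intro h t J hJ
    obtain ⟨x, hx, hx'⟩ := hP h t J hJ
    refine ⟨Multiplicative.ofAdd (Finsupp.single x 1), ?_⟩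
    have : j (Multiplicative.ofAdd (Finsupp.single x 1)) = (p x, c x) := liftF_single _ x
    rw [this]
    exact ⟨hx, hx'⟩
  obtain ⟨hB, hopen⟩ := baireSpace_of_proj j hj hP'
  have hpre : IsPrecompact G := by
    let ev : H →* (PontryaginDual H → Circle) :=
      MonoidHom.pi fun χ => (χ : H →ₜ* Circle).toMonoidHom
    have hev : IsInducing ev := hH.isInducing_char
    exact (isPrecompact_of_compact ((PontryaginDual H → Circle) × (I → Circle))).of_isInducing
      ((ev.prodMap (MonoidHom.id _)).comp j) ((hev.prodMap IsInducing.id).comp hj)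
  have hfin : ∀ C : Set G, IsCompact C → C.Finite := by
    intro C hC
    by_contra hinf
    obtain ⟨D, hDC, hDc, hDi⟩ := Set.Infinite.exists_subset_countable_infinite hinf
    let A : Set X := ⋃ f ∈ D, (f.toAdd.support : Set X)
    have hA : A.Countable := hDc.biUnion fun f _ => f.toAdd.support.countable_toSet
    let S : Set G := {f | (f.toAdd.support : Set X) ⊆ A}
    have hS : IsClosed S := by
      rw [← isOpen_compl_iff, isOpen_iff_mem_nhds]
      intro f hf
      obtain ⟨x, hx, hxA⟩ := not_subset.1 hf
      obtain ⟨z, hz⟩ := exists_zpow_ne_one (Finsupp.mem_support_iff.1 hx)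
      obtain ⟨i, hi⟩ := hext (A ∪ f.toAdd.support) (hA.union f.toAdd.support.countable_toSet)
        (liftF (Pi.mulSingle x z))
      have h1 : (fun g : G => (j g).2 i) ⁻¹' {1}ᶜ ∈ 𝓝 f := by
        apply (hcc i).continuousAt.preimage_mem_nhds
        apply isOpen_compl_singleton.mem_nhds
        rw [hi f subset_union_right, liftF_update]
        exact hz
      refine mem_of_superset h1 fun g hg hgS => hg ?_
      change (j g).2 i = 1
      rw [hi g (subset_union_of_subset_left hgS _), liftF_update]
      have : g.toAdd x = 0 := by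
        by_contra h
        exact hxA (hgS (Finsupp.mem_support_iff.2 h))
      rw [this, zpow_zero]
    have hCS : IsCompact (C ∩ S) := hC.inter_right hS
    have : CompactSpace (C ∩ S : Set G) := isCompact_iff_compactSpace.1 hCS
    have hf : Finite (C ∩ S : Set G) := by
      refine finite_of_bohr free_sep Subtype.val Subtype.val_injective fun χ => ?_
      obtain ⟨i, hi⟩ := hext A hA χ
      refine ((hcc i).comp continuous_subtype_val).congr fun f => hi f.1 f.2.2
    refine hDi (Set.Finite.subset hf fun f hf => ⟨hDC hf, ?_⟩)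
    exact subset_biUnion_of_mem (u := fun f : G => (f.toAdd.support : Set X)) hf
  refine ⟨G, inferInstance, inferInstance, inferInstance, hT2, hpre, hB,
    isReflexive_of_finite hpre hfin, (MonoidHom.fst _ _).comp j,
    continuous_fst.comp hj.continuous, hopen, fun h => ?_⟩
  obtain ⟨g, hg, -⟩ := hP' h 1 ∅ countable_empty
  exact ⟨g, hg⟩

/-- The integers with the Bohr topology are not a continuous homomorphic image of a reflexive
precompact group. -/
theorem exists_not_image :
    ∃ (H : Type) (_ : CommGroup H) (_ : TopologicalSpace H) (_ : IsTopologicalGroup H)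
      (_ : T2Space H), IsPrecompact H ∧
      ∀ (G : Type u) [CommGroup G] [TopologicalSpace G], IsPrecompact G → IsReflexive G →
        ∀ π : G →* H, Continuous π → ¬ Function.Surjective π := by
  let H := Multiplicative ℤ
  let ev : H →* (Circle → Circle) := zpowersHom (Circle → Circle) id
  have hev : ∀ (n : H) (z : Circle), ev n z = z ^ n.toAdd := fun _ _ => rfl
  let : TopologicalSpace H := TopologicalSpace.induced ev inferInstance
  have hj : IsInducing ev := ⟨rfl⟩
  have hsep : ∀ n : H, n ≠ 1 → ∃ z : Circle, ev n z ≠ 1 := fun n hn => exists_zpow_ne_one hn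
  have hinj : Function.Injective ev := by
    rw [injective_iff_map_eq_one]
    intro n hn
    by_contra hne
    obtain ⟨z, hz⟩ := hsep n hne
    exact hz (by rw [hn]; rfl)
  have hT2 : T2Space H := T2Space.of_injective_continuous hinj hj.continuous
  have hcc : ∀ z, Continuous fun n : H => ev n z := fun z => (continuous_apply z).comp hj.continuous
  have hfin : ∀ C : Set H, IsCompact C → C.Finite := by
    intro C hC
    have : CompactSpace C := isCompact_iff_compactSpace.1 hC
    refine finite_of_bohr (A := H) (fun n hn => ?_) Subtype.val Subtype.val_injective fun χ => ?_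
    · obtain ⟨z, hz⟩ := hsep n hn
      exact ⟨zpowersHom Circle z, hz⟩
    · refine ((hcc (χ (Multiplicative.ofAdd 1))).comp continuous_subtype_val).congr fun n => ?_
      exact (MonoidHom.apply_mint Circle χ n.1).symm
  refine ⟨H, inferInstance, inferInstance, topologicalGroup_induced ev, hT2,
    (isPrecompact_of_compact _).of_isInducing ev hj, ?_⟩
  rintro G _ _ hG ⟨e, he⟩ π hπ hsurj
  let κ₀ : Circle → PontryaginDual H := fun z => (⟨zpowersHom Circle z, hcc z⟩ : H →ₜ* Circle)
  have hκ₀ : Continuous κ₀ := continuous_dual_of_finite hfin κ₀ fun n =>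
    continuous_zpow n.toAdd
  let κ : Circle → PontryaginDual G := fun z => PontryaginDual.map ⟨π, hπ⟩ (κ₀ z)
  have hκ : Continuous κ := (map_continuous (PontryaginDual.map ⟨π, hπ⟩)).comp hκ₀
  have hopen : IsOpen {Φ : PontryaginDual (PontryaginDual G) |
      MapsTo Φ (range κ) (Metric.ball 1 (1 / 4))} :=
    isOpen_induced (ContinuousMap.isOpen_setOfPred_mapsTo (isCompact_range hκ) Metric.isOpen_ball)
  have hW := (map_continuous e).continuousAt.preimage_mem_nhds (x := 1) (hopen.mem_nhds (by
    rintro χ -
    simp))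
  have hB := finite_of_equicontinuous hG hW
    (B := range fun z => (κ z : G →ₜ* Circle).toMonoidHom) (by
      rintro _ ⟨z, rfl⟩ w hw
      have := hw (mem_range_self z)
      rw [he] at this
      exact le_of_lt this)
  have := uncountable_circle
  refine Set.infinite_range_of_injective (fun z z' hzz => ?_) hB
  obtain ⟨g, hg⟩ := hsurj (Multiplicative.ofAdd 1)
  have h1 : z ^ (π g).toAdd = z' ^ (π g).toAdd := DFunLike.congr_fun hzz g
  simpa [hg] using h1

end Pool.Agent.Lib.MP_329fc6_gt
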